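import Pool.Agent.V1166.VG.Concrete

/-! Verdier goodness is not invariant under chain homotopy. -/

noncomputable section

namespace Pool.Agent.Results.MP_f89e7b_al.HomotopyFails

open CategoryTheory Pretriangulated Pool.Agent.V1166.VG

/-- There is a triangulated category containing two chain homotopic maps of exact triangles,
one of which is Verdier good while the other is not. -/
theorem result :
    ∃ (C : Type 1) (_ : Category.{0} C) (_ : Preadditive C) (_ : Limits.HasZeroObject C)
      (_ : HasShift C ℤ) (_ : ∀ n : ℤ, (shiftFunctor C n).Additive) (_ : Pretriangulated C)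
      (_ : IsTriangulated C) (T T' : Triangle C) (φ ψ : T ⟶ T'),
      T ∈ distTriang C ∧ T' ∈ distTriang C ∧ ChainHomotopic φ ψ ∧
      VerdierGood φ ∧ ¬ VerdierGood ψ := by
  obtain ⟨Z, v, w, hT⟩ := distinguished_cocone_triangle t8
  exact ⟨K8, inferInstance, inferInstance, inferInstance, inferInstance, inferInstance,
    inferInstance, inferInstance, Triangle.mk t8 v w, Triangle.mk t8 v w, mapA hT t8_cube,
    mapA' hT t8_cube, hT, hT, chainHomotopic_mapA hT t8_cube, verdierGood_mapA hT t8_cube,
    not_verdierGood_mapA' hT t8_cube t8_central t8_sq_ne⟩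

end Pool.Agent.Results.MP_f89e7b_al.HomotopyFails
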